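import Mathlib
import Pool.Agent.ThA.SixMoves
import Pool.Agent.UNI.Knotoid

/-!
# Knotoids: inserting twins whose sum of signs is divisible by 6

The weights of the two smoothings are `w true` (type `A`) and `w false` (type `B`), with
`w true + w false = 1`, `w true * w false = 1` (so `w true ^ 6 = 1`).
-/

set_option autoImplicit false
set_option linter.unusedSectionVars false

open Module

namespace Pool.Agent.ThK

open Pool.Agent.Helper16.Knotoid Pool.Agent.Helper16.Knotoid.GaussDiagram
open Pool.Agent.ThA (wg ee kk NW kk_diagonal sum_states off mem_off notMem_off exists_of_notMem_off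
  sum_off sum_ee_off)

variable {n n' : ℕ}

/-- The sign `1` or `-1` of the crossing `c`. -/
def sgn (D : GaussDiagram n) (c : Fin n) : ℤ := if D.sign c = true then 1 else -1

/-- the excess of the number of components of the state `s` relative to the state `σ`, on average -/
noncomputable def EE (w : Bool → ℂ) (D : GaussDiagram n) (σ : Fin n → Bool) : ℂ :=
  ∑ s : Fin n → Bool, (((D.comps s - 1 : ℕ) : ℂ) - ∑ c, if s c = σ c then 1 else 0) *
    ∏ c, w (s c)

/-- the sum of the signs of the crossings at which `σ` does not respect the orientation -/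
def PP (D : GaussDiagram n) (σ : Fin n → Bool) : ℤ :=
  ∑ c, if σ c = D.sign c then 0 else sgn D c

theorem gmat_diag (D : GaussDiagram n) (σ s : Fin n → Bool) :
    D.gmat s = D.gmat σ + Matrix.diagonal fun c => if s c = σ c then (0 : ZMod 2) else 1 :=
  UNI.gmat_SM D σ s

theorem comps_kk (D : GaussDiagram n) (σ s : Fin n → Bool) :
    D.comps s - 1 = kk (D.gmat σ) (Finset.univ.filter fun c => s c = σ c) := by
  have h0 : (D.gmat σ) = D.gmat σ + Matrix.diagonal (fun _ => (0 : ZMod 2)) := by
    rw [Matrix.diagonal_zero, add_zero]
  rw [D.comps_eq, Nat.add_sub_cancel_left, h0, kk_diagonal, gmat_diag D σ s]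
  have h : (fun c => if s c = σ c then (0 : ZMod 2) else 1) = fun c => 0 +
      if c ∈ Finset.univ.filter (fun c => s c = σ c) then (0 : ZMod 2) else 1 := by
    funext c
    have h1 : c ∈ Finset.univ.filter (fun c => s c = σ c) ↔ s c = σ c := by
      rw [Finset.mem_filter]
      exact and_iff_right (Finset.mem_univ _)
    rw [if_congr h1 rfl rfl, zero_add]
  rw [h]

/-- the mean excess -/
theorem EE_kk (w : Bool → ℂ) (hw : w true + w false = 1) (D : GaussDiagram n)
    (σ : Fin n → Bool) : EE w D σ =
    ∑ W : Finset (Fin n), (ee (D.gmat σ) W : ℂ) * wg (fun c => w (!(σ c))) W := by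
  rw [← sum_states σ]
  unfold EE
  refine Finset.sum_congr rfl fun s _ => ?_
  have hmem : ∀ i, i ∈ Finset.univ.filter (fun i => s i = σ i) ↔ s i = σ i := fun i => by
    rw [Finset.mem_filter]
    exact and_iff_right (Finset.mem_univ _)
  congr 1
  · rw [comps_kk D σ s]
    unfold ee
    push_cast
    congr 1
    rw [Finset.sum_boole]
  · unfold wg
    rw [← Finset.prod_compl_mul_prod (Finset.univ.filter fun i => s i = σ i)]
    congr 1
    · refine Finset.prod_congr rfl fun i hi => ?_
      rw [Finset.mem_compl, hmem] at hi
      congr 1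
      revert hi
      cases s i <;> cases σ i <;> simp
    · refine Finset.prod_congr rfl fun i hi => ?_
      rw [hmem] at hi
      show w (s i) = 1 - w (!(σ i))
      rw [hi]
      cases σ i
      · rw [Bool.not_false]
        exact eq_sub_of_add_eq' hw
      · rw [Bool.not_true]
        exact eq_sub_of_add_eq hw

/-- The diagram `D'` arises from the diagram `D` by inserting a twist region: the new crossings are
interlaced with the same old crossings, and either any two different new crossings are interlaced
(parallel strands, `par = true`) or no two are (antiparallel strands, `par = false`). -/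
structure Insertion (D : GaussDiagram n) (D' : GaussDiagram n') where
  /-- the old crossings -/
  old : Fin n ↪ Fin n'
  /-- the kind of the new crossings -/
  par : Bool
  /-- the old crossings are interlaced as before -/
  same : ∀ i j, D'.Interlaced (old i) (old j) ↔ D.Interlaced i j
  /-- the old crossings have the same signs as before -/
  sign : ∀ i, D'.sign (old i) = D.sign i
  /-- the new crossings are interlaced with the same old crossings -/
  out : ∀ a b, a ∉ Set.range old → b ∉ Set.range old → ∀ i,
    (D'.Interlaced a (old i) ↔ D'.Interlaced b (old i))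
  /-- the new crossings with each other -/
  ins : ∀ a b, a ∉ Set.range old → b ∉ Set.range old → a ≠ b →
    (D'.Interlaced a b ↔ par = true)

/-- the matrix of a state off the diagonal -/
theorem gmat_ne (D : GaussDiagram n) (σ : Fin n → Bool) {i j : Fin n} (h : i ≠ j) :
    D.gmat σ i j = 1 ↔ D.Interlaced i j := by
  rw [← UNI.cut_iff]
  unfold Cut
  exact ⟨fun h1 => h1.resolve_right fun h2 => h h2.1, Or.inl⟩

namespace Insertion

variable {D : GaussDiagram n} {D' : GaussDiagram n'}

open Classical in
/-- the sum of the signs of the new crossings -/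
noncomputable def total (I : Insertion D D') : ℤ :=
  ∑ a, if a ∈ Set.range I.old then 0 else sgn D' a

theorem mem_range (I : Insertion D D') (a : Fin n') :
    a ∉ Set.range I.old ↔ a ∈ off I.old := by
  rw [mem_off]
  exact ⟨fun h c hc => h ⟨c, hc⟩, fun h ⟨c, hc⟩ => h c hc⟩

theorem total_eq (I : Insertion D D') : I.total = ∑ a ∈ off I.old, sgn D' a := by
  classical
  unfold total
  rw [sum_off I.old]
  rw [Finset.sum_eq_zero (s := Finset.univ), add_zero]
  · refine Finset.sum_congr rfl fun a ha => ?_
    rw [if_neg ((I.mem_range a).2 ha)]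
  · intro c _
    rw [if_pos ⟨c, rfl⟩]

theorem even_total (I : Insertion D D') (h : Even I.total) : Even (off I.old).card := by
  rw [total_eq] at h
  have h1 : ∀ S : Finset (Fin n'), Even (∑ a ∈ S, sgn D' a) ↔ Even (S.card : ℤ) := by
    intro S
    induction S using Finset.induction_on with
    | empty => simp
    | insert a S ha ih =>
      rw [Finset.sum_insert ha, Finset.card_insert_of_notMem ha, Nat.cast_succ, Int.even_add,
        Int.even_add, ih]
      have h2 : Even (sgn D' a) ↔ Even (1 : ℤ) := by
        unfold sgn
        split_ifs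
        · exact Iff.rfl
        · rw [even_neg]
      rw [h2]
      exact iff_comm
  exact_mod_cast (h1 _).1 h

/-- the state of the new diagram: the new crossings are cut -/
noncomputable def lift (I : Insertion D D') (σ : Fin n → Bool) : Fin n' → Bool :=
  fun a => (Pool.Agent.ThA.kls I.old a).elim (if I.par = true then !(D'.sign a) else D'.sign a) σ

theorem lift_old (I : Insertion D D') (σ : Fin n → Bool) (i : Fin n) :
    I.lift σ (I.old i) = σ i := by
  unfold lift
  rw [Pool.Agent.ThA.kls_apply]
  rfl

theorem lift_off (I : Insertion D D') (σ : Fin n → Bool) (a : Fin n') (ha : a ∈ off I.old) :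
    I.lift σ a = if I.par = true then !(D'.sign a) else D'.sign a := by
  unfold lift
  rw [(Pool.Agent.ThA.kls_off I.old a).2 ha]
  rfl

theorem gmat_old (I : Insertion D D') (σ : Fin n → Bool) (i j : Fin n) :
    D'.gmat (I.lift σ) (I.old i) (I.old j) = D.gmat σ i j := by
  by_cases h : i = j
  · subst h
    rw [gmat_self, gmat_self, lift_old, I.sign]
  · apply UNI.zmod2_ext
    rw [gmat_ne _ _ h, gmat_ne _ _ (fun h' => h (I.old.injective h'))]
    exact I.same i j

theorem gmat_off (I : Insertion D D') (σ : Fin n → Bool) (a b : Fin n')
    (ha : a ∈ off I.old) (hb : b ∈ off I.old) :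
    D'.gmat (I.lift σ) a b = if I.par = true then 1 else 0 := by
  by_cases h : a = b
  · subst h
    rw [gmat_self, I.lift_off σ a ha]
    cases I.par <;> cases D'.sign a <;> rfl
  · apply UNI.zmod2_ext
    rw [gmat_ne _ _ h, I.ins a b ((I.mem_range a).2 ha) ((I.mem_range b).2 hb) h]
    cases I.par <;> decide

theorem gmat_row (I : Insertion D D') (σ : Fin n → Bool) (a : Fin n') (ha : a ∈ off I.old)
    (b : Fin n') (hb : b ∈ off I.old) (k : Fin n') :
    D'.gmat (I.lift σ) a k = D'.gmat (I.lift σ) b k := by
  by_cases hk : k ∈ off I.old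
  · rw [I.gmat_off σ a k ha hk, I.gmat_off σ b k hb hk]
  · obtain ⟨c, rfl⟩ := exists_of_notMem_off I.old k hk
    have h1 : a ≠ I.old c := fun h => notMem_off I.old c (h ▸ ha)
    have h2 : b ≠ I.old c := fun h => notMem_off I.old c (h ▸ hb)
    apply UNI.zmod2_ext
    rw [gmat_ne _ _ h1, gmat_ne _ _ h2]
    exact I.out a b ((I.mem_range a).2 ha) ((I.mem_range b).2 hb) c

/-- **the mean excess does not change** -/
theorem EE_eq (I : Insertion D D') (h6 : (6 : ℤ) ∣ I.total) (w : Bool → ℂ)
    (hw : w true + w false = 1) (hw' : w true * w false = 1) (σ : Fin n → Bool) :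
    EE w D' (I.lift σ) = EE w D σ := by
  have heven : Even (off I.old).card :=
    I.even_total ((even_iff_two_dvd).2 (dvd_trans (by norm_num) h6))
  have hw0 : w true ≠ 0 := left_ne_zero_of_mul_eq_one hw'
  have hwf : w false = (w true)⁻¹ := eq_inv_of_mul_eq_one_right hw'
  have hw6 : w true ^ (6 : ℤ) = 1 := by
    have h1 : w true ^ 2 = w true - 1 := by
      have : w false = 1 - w true := eq_sub_of_add_eq' hw
      rw [this] at hw'
      linear_combination -hw'
    have h2 : w true ^ 3 = -1 := by linear_combination (w true + 1) * h1
    have h3 : w true ^ 6 = 1 := by linear_combination (w true ^ 3 - 1) * h2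
    exact_mod_cast h3
  rw [EE_kk w hw, EE_kk w hw, sum_ee_off (D.gmat σ) (D'.gmat (I.lift σ)) I.old
    (D'.gmat_symm _) (I.gmat_old σ) (I.gmat_row σ) heven]
  · have h1 : (fun c => w (!(I.lift σ (I.old c)))) = fun c => w (!(σ c)) := by
      funext c
      rw [I.lift_old]
    rw [h1]
  · have h1 : ∀ a ∈ off I.old, w (!(I.lift σ a)) =
        w true ^ (if I.par = true then sgn D' a else -sgn D' a) := by
      intro a ha
      rw [I.lift_off σ a ha]
      unfold sgn
      cases I.par <;> cases D'.sign a <;> simp [hwf]
    rw [Finset.prod_congr rfl h1, ← Pool.Agent.ThA.M2.zpow_sum _ _ hw0]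
    have h2 : (∑ a ∈ off I.old, if I.par = true then sgn D' a else -sgn D' a) =
        if I.par = true then I.total else -I.total := by
      rw [total_eq]
      cases I.par
      · simp
      · simp
    obtain ⟨k, hk⟩ := h6
    have h3 : (if I.par = true then I.total else -I.total) =
        6 * (if I.par = true then k else -k) := by
      rw [hk]
      split_ifs <;> ring
    rw [h2, h3, zpow_mul, hw6, one_zpow]

/-- **the change of the signed number of crossings** -/
theorem PP_eq (I : Insertion D D') (σ : Fin n → Bool) :
    PP D' (I.lift σ) = PP D σ + if I.par = true then I.total else 0 := by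
  unfold PP
  rw [sum_off I.old, total_eq, add_comm]
  congr 1
  · refine Finset.sum_congr rfl fun c _ => ?_
    rw [I.lift_old]
    unfold sgn
    rw [I.sign]
  · rw [Finset.sum_congr rfl fun a ha => by rw [I.lift_off σ a ha]]
    cases I.par
    · simp
    · have h1 : ∀ b : Bool, ((!b) = b) = False := by decide
      simp [h1]

end Insertion

end Pool.Agent.ThK
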