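import Mathlib
import Pool.Agent.ThK.SixMoves

/-!
# Knotoids: the value and the derivative of the normalized bracket polynomial at `exp (π i / 3)`

At this point `-(A^2 + A^(-2)) = 1` and `A + A^(-1) = 1`, so that every state has value `1`.
-/

set_option autoImplicit false

open Complex LaurentPolynomial

namespace Pool.Agent.ThK

open Pool.Agent.Helper16.Knotoid Pool.Agent.Helper16.Knotoid.GaussDiagram
open Pool.Agent.ThA.M2 (ev ev_T ev_T_zpow hasDerivAt_ev_T sum_prod sum_prod_lin zpow_sum)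

variable {n : ℕ}

/-- the point -/
noncomputable def pt : ℂ := exp ((Real.pi / 3 : ℝ) * I)

theorem pt_ne : pt ≠ 0 := exp_ne_zero _

theorem pt_eq : pt = 1 / 2 + Real.sqrt 3 / 2 * I := by
  unfold pt
  rw [Complex.exp_mul_I, ← Complex.ofReal_cos, ← Complex.ofReal_sin, Real.cos_pi_div_three,
    Real.sin_pi_div_three]
  push_cast
  ring

theorem sqrt3_sq : ((Real.sqrt 3 : ℝ) : ℂ) ^ 2 = 3 := Pool.Agent.ThA.M2.sqrt3_sq

theorem pt_rel : pt ^ 2 = pt - 1 := by
  rw [pt_eq]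
  have h1 := sqrt3_sq
  have h2 := I_sq
  linear_combination (1 / 4 : ℂ) * I ^ 2 * h1 + (3 / 4 : ℂ) * h2

/-- the weights of the smoothings -/
noncomputable def w (b : Bool) : ℂ := if b then pt else pt⁻¹

theorem w_mul : w true * w false = 1 := mul_inv_cancel₀ pt_ne

theorem inv_pt : pt⁻¹ = 1 - pt := by
  rw [inv_eq_of_mul_eq_one_right]
  linear_combination -pt_rel

theorem w_add : w true + w false = 1 := by
  show pt + pt⁻¹ = 1
  rw [inv_pt]
  ring

theorem w_false : w false = 1 / 2 - Real.sqrt 3 / 2 * I := by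
  show pt⁻¹ = _
  rw [inv_pt, pt_eq]
  ring

theorem w_true : w true = 1 / 2 + Real.sqrt 3 / 2 * I := pt_eq

theorem pt_three : pt ^ (3 : ℤ) = -1 := by
  have h := pt_rel
  have h3 : pt ^ (3 : ℤ) = pt ^ 3 := by norm_cast
  rw [h3]
  linear_combination (pt + 1) * h

/-- the variable of the loops -/
theorem ev_d : ev (Real.pi / 3) (-T 2 - T (-2)) = 1 := by
  rw [map_sub, map_neg, ev_T_zpow, ev_T_zpow]
  change -(pt ^ (2 : ℤ)) - pt ^ (-2 : ℤ) = 1
  have h1 := pt_rel
  have h2 : pt ^ (2 : ℤ) = pt ^ 2 := by norm_cast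
  have h3 : pt ^ (-2 : ℤ) = (pt⁻¹) ^ 2 := by
    rw [zpow_neg, h2, inv_pow]
  rw [h2, h3, inv_pt]
  linear_combination -2 * h1

theorem hasDerivAt_d : HasDerivAt (fun x : ℝ => ev x (-T 2 - T (-2))) (2 * Real.sqrt 3)
    (Real.pi / 3) := by
  have h1 := ((hasDerivAt_ev_T 2 (Real.pi / 3)).fun_neg).fun_sub
    (hasDerivAt_ev_T (-2) (Real.pi / 3))
  have h2 : (fun x : ℝ => ev x (-T 2 - T (-2))) = fun x : ℝ => -ev x (T 2) - ev x (T (-2)) := by
    funext x
    rw [map_sub, map_neg]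
  rw [h2]
  refine h1.congr_deriv ?_
  rw [ev_T_zpow, ev_T_zpow]
  change -(((2 : ℤ) : ℂ) * I * pt ^ (2 : ℤ)) - ((-2 : ℤ) : ℂ) * I * pt ^ (-2 : ℤ) = _
  have h2 : pt ^ (2 : ℤ) = pt ^ 2 := by norm_cast
  have h3 : pt ^ (-2 : ℤ) = (pt⁻¹) ^ 2 := by
    rw [zpow_neg, h2, inv_pow]
  rw [h2, h3, inv_pt, pt_eq]
  have h5 := I_sq
  push_cast
  linear_combination (-2 * (Real.sqrt 3 : ℂ)) * h5

theorem hasDerivAt_term (m : ℤ) (k : ℕ) :
    HasDerivAt (fun x : ℝ => ev x (T m * (-T 2 - T (-2)) ^ k))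
      ((m * I + 2 * Real.sqrt 3 * k) * pt ^ m) (Real.pi / 3) := by
  have h1 := (hasDerivAt_ev_T m (Real.pi / 3)).fun_mul (hasDerivAt_d.fun_pow k)
  have h2 : (fun x : ℝ => ev x (T m * (-T 2 - T (-2)) ^ k)) =
      fun x : ℝ => ev x (T m) * (ev x (-T 2 - T (-2))) ^ k := by
    funext x
    rw [map_mul, map_pow]
  rw [h2]
  refine h1.congr_deriv ?_
  rw [ev_d, ev_T_zpow, one_pow, one_pow]
  change (m * I * pt ^ m) * 1 + pt ^ m * (k * 1 * (2 * Real.sqrt 3)) = _
  ring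

theorem pt_stateSign (s : Fin n → Bool) : pt ^ stateSign s = ∏ c, w (s c) := by
  unfold stateSign
  rw [zpow_sum _ _ pt_ne]
  refine Finset.prod_congr rfl fun c _ => ?_
  cases s c
  · show pt ^ (-1 : ℤ) = pt⁻¹
    exact zpow_neg_one pt
  · show pt ^ (1 : ℤ) = pt
    exact _root_.zpow_one pt

theorem sum_w : ∑ s : Fin n → Bool, ∏ c, w (s c) = 1 := by
  rw [sum_prod (fun _ b => w b)]
  exact Finset.prod_eq_one fun _ _ => w_add

/-- the factor in front of the bracket -/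
theorem front (D : GaussDiagram n) :
    (-1 : ℂ) ^ D.writhe.natAbs * pt ^ (-3 * D.writhe) = 1 := by
  rw [_root_.zpow_mul, _root_.zpow_neg, pt_three]
  have h1 : ((-1 : ℂ)⁻¹) = -1 := by norm_num
  rw [h1]
  rcases Int.even_or_odd D.writhe with h | h
  · rw [(Int.natAbs_even.2 h).neg_one_pow, h.neg_one_zpow, one_mul]
  · rw [(Int.natAbs_odd.2 h).neg_one_pow, h.neg_one_zpow]
    norm_num

theorem value (D : GaussDiagram n) : ev (Real.pi / 3) D.normalizedBracket = 1 := by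
  unfold normalizedBracket bracket
  rw [map_mul, map_mul, map_pow, map_neg, map_one, map_sum, ev_T_zpow]
  change (-1 : ℂ) ^ D.writhe.natAbs * pt ^ (-3 * D.writhe) * _ = 1
  rw [front, one_mul, ← sum_w (n := n)]
  refine Finset.sum_congr rfl fun s _ => ?_
  rw [map_mul, map_pow, ev_d, one_pow, mul_one, ev_T_zpow]
  exact pt_stateSign s

theorem sum_terms (D : GaussDiagram n) (σ : Fin n → Bool) :
    ∑ s : Fin n → Bool, (((-3 * D.writhe : ℤ) : ℂ) * I +
      ((stateSign s : ℂ) * I + 2 * Real.sqrt 3 * ((D.comps s - 1 : ℕ) : ℂ))) *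
      ∏ c, w (s c) = -6 * PP D σ * I + 2 * Real.sqrt 3 * EE w D σ := by
  have h2 : ∀ s : Fin n → Bool, (((-3 * D.writhe : ℤ) : ℂ) * I +
      ((stateSign s : ℂ) * I + 2 * Real.sqrt 3 * ((D.comps s - 1 : ℕ) : ℂ))) *
      ∏ c, w (s c) =
      ((-3 * D.writhe : ℤ) : ℂ) * I * ∏ c, w (s c) +
      (∑ c, ((if s c = true then (1 : ℂ) else -1) * I +
        2 * Real.sqrt 3 * if s c = σ c then (1 : ℂ) else 0)) * ∏ c, w (s c) +
      2 * Real.sqrt 3 * ((((D.comps s - 1 : ℕ) : ℂ) - ∑ c, if s c = σ c then 1 else 0) *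
        ∏ c, w (s c)) := by
    intro s
    rw [Finset.sum_add_distrib, ← Finset.sum_mul, ← Finset.mul_sum]
    unfold stateSign
    push_cast
    ring
  rw [Finset.sum_congr rfl fun s _ => h2 s, Finset.sum_add_distrib, Finset.sum_add_distrib,
    ← Finset.mul_sum, ← Finset.mul_sum, sum_w,
    sum_prod_lin (fun _ b => w b) (fun _ => w_add) (fun c b =>
      (if b = true then (1 : ℂ) else -1) * I + 2 * Real.sqrt 3 * if b = σ c then (1 : ℂ) else 0)]
  change _ + _ + _ * EE w D σ = _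
  have h3 : ((PP D σ : ℤ) : ℂ) = ∑ c, ((if σ c = D.sign c then 0 else sgn D c : ℤ) : ℂ) := by
    unfold PP
    push_cast
    rfl
  have h4 : (((-3 * D.writhe : ℤ) : ℂ)) = ∑ c, (-3 * ((sgn D c : ℤ) : ℂ)) := by
    rw [← Finset.mul_sum]
    unfold writhe sgn
    push_cast
    rfl
  rw [h3, h4, mul_one, Finset.mul_sum, Finset.sum_mul, Finset.sum_mul, ← Finset.sum_add_distrib]
  congr 1
  refine Finset.sum_congr rfl fun c _ => ?_
  have h5 := sqrt3_sq
  have h6 := I_sq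
  rw [w_true, w_false]
  unfold sgn
  cases hs : σ c <;> cases he : D.sign c
  · simp only [if_true, Bool.false_eq_true, Bool.true_eq_false, if_false]
    push_cast
    linear_combination (-I) * h5 + (Real.sqrt 3 : ℂ) * h6
  · simp only [if_true, Bool.false_eq_true, Bool.true_eq_false, if_false]
    push_cast
    linear_combination (-I) * h5 + (Real.sqrt 3 : ℂ) * h6
  · simp only [if_true, Bool.false_eq_true, Bool.true_eq_false, if_false]
    push_cast
    linear_combination (I) * h5 + (Real.sqrt 3 : ℂ) * h6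
  · simp only [if_true, Bool.false_eq_true, Bool.true_eq_false, if_false]
    push_cast
    linear_combination (I) * h5 + (Real.sqrt 3 : ℂ) * h6

/-- **the derivative of the normalized bracket polynomial at `exp (π i / 3)`** -/
theorem deriv (D : GaussDiagram n) (σ : Fin n → Bool) :
    HasDerivAt (fun x : ℝ => ev x D.normalizedBracket)
      (-6 * PP D σ * I + 2 * Real.sqrt 3 * EE w D σ) (Real.pi / 3) := by
  have h4 : HasDerivAt (fun x : ℝ => ∑ s : Fin n → Bool,
      ev x (T (stateSign s) * (-T 2 - T (-2)) ^ (D.comps s - 1)))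
      (∑ s : Fin n → Bool, ((stateSign s : ℂ) * I +
        2 * Real.sqrt 3 * ((D.comps s - 1 : ℕ) : ℂ)) * pt ^ stateSign s) (Real.pi / 3) :=
    HasDerivAt.fun_sum fun s _ => hasDerivAt_term (stateSign s) (D.comps s - 1)
  have h5 := (((hasDerivAt_ev_T (-3 * D.writhe) (Real.pi / 3)).fun_mul h4).const_mul
    ((-1 : ℂ) ^ D.writhe.natAbs))
  have h6 : (fun x : ℝ => ev x D.normalizedBracket) = fun x : ℝ =>
      (-1 : ℂ) ^ D.writhe.natAbs * (ev x (T (-3 * D.writhe)) * ∑ s : Fin n → Bool,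
        ev x (T (stateSign s) * (-T 2 - T (-2)) ^ (D.comps s - 1))) := by
    funext x
    unfold normalizedBracket bracket
    rw [map_mul, map_mul, map_pow, map_neg, map_one, map_sum, mul_assoc]
  rw [h6]
  refine h5.congr_deriv ?_
  rw [← sum_terms]
  have h7 : ∀ s : Fin n → Bool,
      ev (Real.pi / 3) (T (stateSign s) * (-T 2 - T (-2)) ^ (D.comps s - 1)) =
        ∏ c, w (s c) := by
    intro s
    rw [map_mul, map_pow, ev_d, one_pow, mul_one, ev_T_zpow]
    exact pt_stateSign s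
  rw [Finset.sum_congr rfl fun s _ => h7 s, sum_w, ev_T_zpow]
  change (-1 : ℂ) ^ D.writhe.natAbs * (((-3 * D.writhe : ℤ) : ℂ) * I * pt ^ (-3 * D.writhe) * 1 +
    pt ^ (-3 * D.writhe) * _) = _
  have h8 := front D
  have h9 : ∀ X : ℂ, (-1 : ℂ) ^ D.writhe.natAbs * (((-3 * D.writhe : ℤ) : ℂ) * I *
      pt ^ (-3 * D.writhe) * 1 + pt ^ (-3 * D.writhe) * X) =
      ((-1 : ℂ) ^ D.writhe.natAbs * pt ^ (-3 * D.writhe)) *
        (((-3 * D.writhe : ℤ) : ℂ) * I + X) := by
    intro X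
    ring
  rw [h9, h8, one_mul]
  have h10 : ∀ (a : ℂ) (b : (Fin n → Bool) → ℂ),
      ∑ s : Fin n → Bool, (a + b s) * ∏ c, w (s c) = a + ∑ s, b s * ∏ c, w (s c) := by
    intro a b
    rw [Finset.sum_congr rfl fun s _ => add_mul a (b s) (∏ c, w (s c)), Finset.sum_add_distrib,
      ← Finset.mul_sum, sum_w, mul_one]
  rw [h10]
  congr 1
  refine Finset.sum_congr rfl fun s _ => ?_
  rw [pt_stateSign]

end Pool.Agent.ThK
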